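import Pool.Agent.Helper40.UC.Sum
import Pool.Agent.Helper40.UC.Transfer

/-!
# Bumps versus norms with uniformly continuous second derivative: `ℓ₂`-sums
-/

open scoped lp ENNReal

namespace Pool.Agent.Results.MP_d19a4e_an.HilbertSums

open Pool.Agent.Helper40.UC

/-- `X` has a bump with uniformly continuous second derivative. -/
def UC2Bump (X : Type) [NormedAddCommGroup X] [NormedSpace ℝ X] : Prop :=
  ∃ f : X → ℝ, f ≠ 0 ∧ Bornology.IsBounded (Function.support f) ∧
    ContDiff ℝ 2 f ∧ UniformContinuous (fderiv ℝ (fderiv ℝ f))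

/-- `X` has an equivalent norm `N` which is twice continuously differentiable off the origin, with
second derivative uniformly continuous on the unit sphere of `N`. -/
def UC2Norm (X : Type) [NormedAddCommGroup X] [NormedSpace ℝ X] : Prop :=
  ∃ N : X → ℝ,
    (∀ x y : X, N (x + y) ≤ N x + N y) ∧
    (∀ (c : ℝ) (x : X), N (c • x) = |c| * N x) ∧
    (∃ a b : ℝ, 0 < a ∧ 0 < b ∧ ∀ x : X, a * ‖x‖ ≤ N x ∧ N x ≤ b * ‖x‖) ∧
    ContDiffOn ℝ 2 N {x : X | x ≠ 0} ∧
    UniformContinuousOn (fderiv ℝ (fderiv ℝ N)) {x : X | N x = 1}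

/-- The norm of `X` is equivalent, with constant `C` for the squares, to the norm given by an inner
product: there is a bounded symmetric bilinear form `A` with `‖x‖ ^ 2 ≤ A x x ≤ C * ‖x‖ ^ 2`. -/
def InnerEquiv (C : ℝ) (X : Type) [NormedAddCommGroup X] [NormedSpace ℝ X] : Prop :=
  ∃ A : X →L[ℝ] X →L[ℝ] ℝ, (∀ x y, A x y = A y x) ∧
    ∀ x, ‖x‖ ^ 2 ≤ A x x ∧ A x x ≤ C * ‖x‖ ^ 2

/-- Let `X` be isomorphic to the `ℓ₂`-sum of arbitrary normed spaces `E n` and have a bump with
uniformly continuous second derivative. Then (1) all `E n` with `n` large are uniformly isomorphic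
to inner product spaces, and (2) if moreover each `E n` is finite dimensional or is isomorphic to
`E m` for arbitrarily large `m` (for example `X = ℓ₂(E)`), then `X` is isomorphic to an inner
product space, hence has an equivalent norm which is twice differentiable off `0` with second
derivative uniformly continuous on its unit sphere: Q1 has a positive answer for these `X`. -/
theorem result (X : Type) [NormedAddCommGroup X] [NormedSpace ℝ X]
    (E : ℕ → Type) [∀ n, NormedAddCommGroup (E n)] [∀ n, NormedSpace ℝ (E n)]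
    (T : X ≃L[ℝ] lp E 2) (hX : UC2Bump X) :
    (∃ (C : ℝ) (N : ℕ), ∀ n ≥ N, InnerEquiv C (E n)) ∧
    ((∀ n, FiniteDimensional ℝ (E n) ∨ ∀ N, ∃ m ≥ N, Nonempty (E n ≃L[ℝ] E m)) →
      (∃ C : ℝ, InnerEquiv C X) ∧ UC2Norm X) := by
  obtain ⟨f, hf0, hb, hf, hu⟩ := hX
  obtain ⟨g, hg0, hgb, hg, hgu⟩ := bump_transfer T hf0 hb hf hu
  obtain ⟨C₀, N₀, hH⟩ := hilb_of_bump hg0 hgb hg hgu
  refine ⟨⟨C₀, N₀, fun n hn => ?_⟩, fun hE => ?_⟩
  · obtain ⟨A, hA⟩ := hH n hn
    refine ⟨(1 / 2 : ℝ) • (A + A.flip), fun x y => ?_, fun x => ?_⟩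
    · change (1 / 2 : ℝ) * (A x y + A y x) = (1 / 2) * (A y x + A x y)
      rw [add_comm]
    · have h1 : ((1 / 2 : ℝ) • (A + A.flip)) x x = A x x := by
        change (1 / 2 : ℝ) * (A x x + A x x) = A x x
        ring
      rw [h1]
      exact hA x
  -- every `E n` is Hilbertian
  have h1 : ∀ n, ∃ C, Hilb C (E n) := by
    intro n
    rcases hE n with h | h
    · exact hilb_of_finite (E n)
    · obtain ⟨m, hm, ⟨S⟩⟩ := h N₀
      exact (hH m hm).of_equiv S
  choose C hC using h1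
  -- a uniform constant
  have h2 : ∀ n, Hilb (|C₀| + ∑ i ∈ Finset.range N₀, |C i|) (E n) := by
    intro n
    by_cases hn : N₀ ≤ n
    · refine (hH n hn).mono ((le_abs_self _).trans ?_)
      exact le_add_of_nonneg_right (Finset.sum_nonneg fun i _ => abs_nonneg _)
    · refine (hC n).mono ((le_abs_self _).trans ?_)
      have h3 : |C n| ≤ ∑ i ∈ Finset.range N₀, |C i| :=
        Finset.single_le_sum (f := fun i => |C i|) (fun i _ => abs_nonneg _)
          (Finset.mem_range.2 (not_le.1 hn))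
      exact h3.trans (le_add_of_nonneg_left (abs_nonneg _))
  obtain ⟨B, hBs, hB⟩ := form_of_hilb h2
  set D := max (|C₀| + ∑ i ∈ Finset.range N₀, |C i|) 0 with hD
  have hD0 : 0 ≤ D := le_max_right _ _
  -- transport to `X`
  let S : X →L[ℝ] lp E 2 := T
  let c : ℝ := ‖(T.symm : lp E 2 →L[ℝ] X)‖ ^ 2
  let A : X →L[ℝ] X →L[ℝ] ℝ := c • (B.bilinearComp S S)
  have hA : ∀ x y, A x y = c * B (S x) (S y) := fun x y => rfl
  have hAs : ∀ x y, A x y = A y x := fun x y => by rw [hA, hA, hBs]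
  have hAb : ∀ x, ‖x‖ ^ 2 ≤ A x x ∧ A x x ≤ (c * (D * ‖S‖ ^ 2)) * ‖x‖ ^ 2 := by
    intro x
    rw [hA]
    constructor
    · have h2 : ‖x‖ ≤ ‖(T.symm : lp E 2 →L[ℝ] X)‖ * ‖S x‖ := by
        have h3 := (T.symm : lp E 2 →L[ℝ] X).le_opNorm (S x)
        have h4 : (T.symm : lp E 2 →L[ℝ] X) (S x) = x := T.symm_apply_apply x
        rwa [h4] at h3
      calc ‖x‖ ^ 2 ≤ (‖(T.symm : lp E 2 →L[ℝ] X)‖ * ‖S x‖) ^ 2 := by gcongr
        _ = c * ‖S x‖ ^ 2 := by rw [mul_pow]
        _ ≤ _ := by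
          gcongr
          exact (hB (S x)).1
    · calc c * B (S x) (S x) ≤ c * (D * ‖S x‖ ^ 2) := by
            gcongr
            exact (hB (S x)).2
        _ ≤ c * (D * (‖S‖ * ‖x‖) ^ 2) := by
            gcongr
            exact S.le_opNorm x
        _ = _ := by ring
  exact ⟨⟨_, A, hAs, hAb⟩, norm_of_form A hAs hAb⟩

end Pool.Agent.Results.MP_d19a4e_an.HilbertSums
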