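import Pool.Agent.Helper18.UCFin
import Pool.Agent.Helper18.UCBump

/-!
# Bumps versus norms with uniformly continuous second derivative: the upper half
-/

open Filter Topology Set

namespace Pool.Agent.Results.MP_d19a4e_an.UpperExpansion

/-- The modulus of continuity of the second derivative of `f`: the supremum of
`‖f'' x - f'' y‖` over all `x`, `y` with `‖x - y‖ ≤ t`. -/
noncomputable def modulus {X : Type*} [NormedAddCommGroup X] [NormedSpace ℝ X]
    (f : X → ℝ) (t : ℝ) : ℝ :=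
  sSup {r | ∃ x y : X, ‖x - y‖ ≤ t ∧
    r = ‖fderiv ℝ (fderiv ℝ f) x - fderiv ℝ (fderiv ℝ f) y‖}

/-- Let `X` be a real normed space with a bump `f` whose second derivative is uniformly
continuous, with modulus of continuity `m`. Then `X` has an equivalent norm `N` such that, with a
constant `K`, at every point `x` with `N x = 1` there are a continuous linear functional `ℓ` and a
bounded positive semidefinite symmetric bilinear form `Q`, of norm at most `K`, with
`1 + ℓ h ≤ N (x + h) ≤ 1 + ℓ h + Q h h + K (m (K ‖h‖) + ‖h‖) ‖h‖ ^ 2` for all `h`.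
Here `m t → 0` as `t → 0`, so the last term is `o (‖h‖ ^ 2)`, uniformly in `x`. -/
theorem result (X : Type*) [NormedAddCommGroup X] [NormedSpace ℝ X] (f : X → ℝ)
    (hf0 : f ≠ 0) (hb : Bornology.IsBounded (Function.support f)) (hf : ContDiff ℝ 2 f)
    (hu : UniformContinuous (fderiv ℝ (fderiv ℝ f))) :
    Tendsto (modulus f) (𝓝[>] 0) (𝓝 0) ∧
    ∃ N : X → ℝ,
      (∀ x y : X, N (x + y) ≤ N x + N y) ∧
      (∀ (c : ℝ) (x : X), N (c • x) = |c| * N x) ∧
      (∃ a b : ℝ, 0 < a ∧ 0 < b ∧ ∀ x : X, a * ‖x‖ ≤ N x ∧ N x ≤ b * ‖x‖) ∧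
      ∃ K > 0, ∀ x : X, N x = 1 → ∃ (ℓ : X →L[ℝ] ℝ) (Q : X →L[ℝ] X →L[ℝ] ℝ),
        (∀ h k, Q h k = Q k h) ∧ (∀ h, 0 ≤ Q h h) ∧ (∀ h k, |Q h k| ≤ K * (‖h‖ * ‖k‖)) ∧
        ∀ h, 1 + ℓ h ≤ N (x + h) ∧
          N (x + h) ≤ 1 + ℓ h + Q h h + K * (modulus f (K * ‖h‖) + ‖h‖) * ‖h‖ ^ 2 := by
  have hlim : Tendsto (modulus f) (𝓝[>] 0) (𝓝 0) := Helper18.UCHull.mod2_tendsto hu
  refine ⟨hlim, ?_⟩
  rcases subsingleton_or_nontrivial X with hX | hX
  · refine ⟨fun x => ‖x‖, fun x y => norm_add_le x y, fun c x => norm_smul c x,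
      ⟨1, 1, one_pos, one_pos, fun x => by simp⟩, 1, one_pos, fun x hx => ?_⟩
    exfalso
    have h1 : x = 0 := Subsingleton.elim _ _
    rw [h1] at hx
    simp at hx
  · obtain ⟨v, R, C, r₀, s, hs, D, Mm, hM⟩ := Helper18.UCHull.exists_dat hf0 hb hf hu
    obtain ⟨K, hK, hE⟩ := Helper18.UCHull.final_exp D hM
    have hR := D.R_pos
    have hr := D.r₀_pos
    have hsm : Tendsto (fun t => s * Helper18.UCHull.mod2 f t) (𝓝[>] 0) (𝓝 0) := by
      have := hlim.const_mul s
      rwa [mul_zero] at this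
    refine ⟨Helper18.UCHull.N v R, Helper18.UCHull.N_add D, Helper18.UCHull.N_smul D,
      ⟨(2 * R)⁻¹, r₀⁻¹, by positivity, by positivity, fun x => ⟨?_, Helper18.UCHull.N_le D x⟩⟩,
      K * (s + 1), by positivity, fun x hx => ?_⟩
    · rw [inv_mul_le_iff₀ (by positivity)]
      exact Helper18.UCHull.le_N D x
    · obtain ⟨ℓ, Q, hQs, hQb, hQE⟩ := hE x hx
      obtain ⟨hpos, hlow⟩ := Helper18.UCHull.convex_part (Helper18.UCHull.N v R)
        (Helper18.UCHull.N_add D) (Helper18.UCHull.N_smul D) hK D.m_nonneg hM hsm hx ℓ Q hQE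
      have hKK : K ≤ K * (s + 1) := by nlinarith
      refine ⟨ℓ, Q, hQs, hpos, fun h k => ?_, fun h => ⟨hlow h, ?_⟩⟩
      · refine (hQb h k).trans ?_
        gcongr
      · refine (hQE h).trans ?_
        have h1 : Helper18.UCHull.mod2 f (K * ‖h‖) ≤ modulus f (K * (s + 1) * ‖h‖) := by
          have hmono : Monotone (fun t => s * Helper18.UCHull.mod2 f t) := D.m_mono
          have h2 : s * Helper18.UCHull.mod2 f (K * ‖h‖) ≤
              s * Helper18.UCHull.mod2 f (K * (s + 1) * ‖h‖) :=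
            hmono (by gcongr)
          exact le_of_mul_le_mul_left h2 hs
        have h3 : 0 ≤ modulus f (K * (s + 1) * ‖h‖) := Helper18.UCHull.mod2_nonneg _
        have h4 : K * (s * Helper18.UCHull.mod2 f (K * ‖h‖) + ‖h‖) * ‖h‖ ^ 2 ≤
            K * (s + 1) * (modulus f (K * (s + 1) * ‖h‖) + ‖h‖) * ‖h‖ ^ 2 := by
          have h5 : s * Helper18.UCHull.mod2 f (K * ‖h‖) + ‖h‖ ≤
              (s + 1) * (modulus f (K * (s + 1) * ‖h‖) + ‖h‖) := by
            have h6 : s * Helper18.UCHull.mod2 f (K * ‖h‖) ≤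
                s * modulus f (K * (s + 1) * ‖h‖) := by gcongr
            have h7 : 0 ≤ ‖h‖ := norm_nonneg _
            nlinarith
          calc K * (s * Helper18.UCHull.mod2 f (K * ‖h‖) + ‖h‖) * ‖h‖ ^ 2 ≤
              K * ((s + 1) * (modulus f (K * (s + 1) * ‖h‖) + ‖h‖)) * ‖h‖ ^ 2 := by gcongr
            _ = _ := by ring
        linarith

end Pool.Agent.Results.MP_d19a4e_an.UpperExpansion
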